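import Pool.Agent.X250.Sph.Grow

/-!
# Betti numbers of codimension zero aspherical submanifolds in and above the middle dimension

Let `G` be a finite graph of the class `AM n` (for example the graph of a barycentrically subdivided
triangulation of the `(n-1)`-sphere, or a full subgraph of it), and let `W = W G` be its right-angled
Coxeter group.  For a set `A` of vertices let `Σ_A` be the Davis complex of the special subgroup
`W_A`.  If the flag complex of `G` is a flag triangulated `(n-1)`-sphere then the Davis complex `Σ` is
a contractible `n`-manifold, and a regular neighbourhood of the translates `W Σ_A` of `Σ_A`, divided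
by a torsion-free subgroup `H` of finite index, is a disjoint union of compact aspherical `n`-manifolds
with boundary in the closed aspherical manifold `Σ / H`.

We show: up to an error `ε [W : H]`, the `i`-th real Betti number of the part belonging to `A` is at
most that of the part belonging to any larger set `B`, for all `i ≥ n / 2`, and is zero for
`i > n / 2`.  For `n = 2 m` we obtain an inequality between the rational Euler characteristics of the
special subgroups.
-/

set_option autoImplicit false

namespace Pool.Agent.Results.MP_8fe54c_gt.BettiMonotone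

open Module Pool.Agent.W907.SG Pool.Agent.W907.SM Pool.Agent.TH652.Above Pool.Agent.X250.Sph

/-- Let the finite graph `G` be in the class `AM n`.  (1) For each `ε > 0` there is a finite set `E`
of nontrivial elements of `W G` such that for all subgroups `H` of finite index which contain no
conjugate of an element of `E`, all sets `A ⊆ B` of vertices and all degrees `i`: if `n ≤ 2 i` then the
`i`-th real Betti number of `(W Σ_A) / H` is at most the one of `(W Σ_B) / H` plus `ε [W G : H]`, and if
`n < 2 i` then it is at most `ε [W G : H]`.  (2) If `n = 2 m`, `A ⊆ B`, the reduced `ℓ²`-homology of the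
Davis complex of `W_A` vanishes in the degrees `m - 2, m - 4, ...` and that of `W_B` in the degrees
`m - 1, m - 3, ...` then `(-1)^m χ(W_A) ≤ (-1)^m χ(W_B)` for the rational Euler characteristics. -/
theorem result : ∀ (n : ℕ) (V : Type) [Fintype V] [LinearOrder V] (G : SimpleGraph V), AM n G →
    (∀ ε : ℝ, 0 < ε → ∃ E : Finset (W G), (1 : W G) ∉ E ∧ ∀ H : Subgroup (W G), H.FiniteIndex →
      (∀ g ∈ E, ∀ x : W G, x * g * x⁻¹ ∉ H) → ∀ A B : Set V, A ⊆ B → ∀ i : ℕ,
        (n ≤ 2 * i →
          (finrank ℝ (HInvOn G A H i) : ℝ) ≤ finrank ℝ (HInvOn G B H i) + ε * H.index) ∧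
        (n < 2 * i → (finrank ℝ (HInvOn G A H i) : ℝ) ≤ ε * H.index)) ∧
    ∀ m : ℕ, n = 2 * m → ∀ (A B : Set V) [Fintype ↥A] [Fintype ↥B], A ⊆ B →
      (∀ i, i < m → Even (i + m) → LV (G.induce A) i) →
      (∀ i, i < m → Odd (i + m) → LV (G.induce B) i) →
      (-1 : ℚ) ^ m * chiW (G.induce A) ≤ (-1) ^ m * chiW (G.induce B) := by
  intro n V _ _ G hG
  refine ⟨fun ε hε => uniform_sub (P_of_AM hG) ε hε, ?_⟩
  rintro m rfl A B _ _ hAB hA hB
  exact mono_P (P_of_AM hG) hAB hA hB

end Pool.Agent.Results.MP_8fe54c_gt.BettiMonotone
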