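import Pool.Agent.Results.MP_f80465_gt.CoamenableSubgroups

/-!
# Compact aspherical manifolds with boundary and co-amenable subgroups

Let `M` be a compact manifold of dimension `n`, possibly with boundary, with fundamental group `G`. The
cellular chain complex of its universal covering (for a finite complex homotopy equivalent to `M`) is a
finite complex of finitely generated free `ℂG`-modules
`0 → ℂG^(c N) → ... → ℂG^(c 2) → ℂG^(c 1) → 0`, with boundary maps given by matrices `D p` over the
group ring (`ℂG^(c (p + 1))` is in degree `p`, and `c 0 = 0`). Its `ℓ²`-Betti number in degree `p` is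
`betti (D (p + 1)) (D p)`.

Let `H ≤ G` be a subgroup of infinite index such that the action of `G` on `G/H` is amenable (`H` is
co-amenable). Let `M_H → M` be the covering with fundamental group `H`.

Theorem. (1) If the `ℓ²`-Betti numbers over `H` (those of `M_H`) in the degrees `p > n/2` are finite
then `b_p(M) = 0` for all `p > n/2`. So Q1 holds for `M`.
(2) If they are finite in all degrees then all `b_p(M)` are zero, and so is the Euler characteristic.

For aspherical `M` the hypothesis of (2) holds if `H` is of type `FP`, and the one of (1) holds if `M_H` is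
homotopy equivalent to a complex with finitely many cells in the dimensions `> n/2`.

`Chains`, `val`, `cl`, `proj`, `mulMat`, `cycles`, `boundaries`, `dim`, `IsComplex`, `betti`,
`supportedOver`, `FiniteBetti` and `AmenableAction` are defined in
`Pool.Agent.Results.MP_f80465_gt.CoamenableSubgroups`.
-/

set_option autoImplicit false

universe u

namespace Pool.Agent.Results.MP_8fe54c_gt.CoamenableSubgroups

open Pool.Agent.Results.MP_f80465_gt.CoamenableSubgroups (IsComplex betti FiniteBetti AmenableAction)

/-- Let `H` be a co-amenable subgroup of infinite index of `G`, and let `D` be the boundary maps of a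
finite complex of finitely generated free `ℂG`-modules. If the `ℓ²`-Betti numbers over `H` are finite
above the middle dimension then the `ℓ²`-Betti numbers over `G` are zero above the middle dimension; if
they are finite in all degrees, then all `ℓ²`-Betti numbers over `G` and the Euler characteristic are
zero. -/
theorem result {G : Type u} [Group G] (H : Subgroup G) (hH : AmenableAction G (G ⧸ H))
    (hi : Infinite (G ⧸ H)) (c : ℕ → ℕ) (N : ℕ)
    (D : ∀ p, Matrix (Fin (c (p + 1))) (Fin (c p)) (G →₀ ℂ)) (hc : c 0 = 0)
    (hN : ∀ p, N < p → c p = 0) (hD : ∀ p, IsComplex (D (p + 1)) (D p)) (n : ℕ) :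
    ((∀ p, n < 2 * p → FiniteBetti H (D (p + 1)) (D p)) →
      ∀ p, n < 2 * p → betti (D (p + 1)) (D p) = 0) ∧
    ((∀ p, FiniteBetti H (D (p + 1)) (D p)) → (∀ p, betti (D (p + 1)) (D p) = 0) ∧
      ∑ p ∈ Finset.range N, (-1 : ℤ) ^ p * (c (p + 1) : ℤ) = 0) := by
  obtain ⟨h1, h2⟩ := Pool.Agent.Results.MP_f80465_gt.CoamenableSubgroups.result H hH hi
  exact ⟨fun h p hp => h1 _ _ _ _ _ (hD p) (h p hp), fun hβ => h2 c N D hc hN hD hβ⟩

end Pool.Agent.Results.MP_8fe54c_gt.CoamenableSubgroups
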