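import Pool.Agent.X308.T.Iff

/-!
# Vanishing above the middle dimension from a bound in one degree

The class `C` of the theorem: compact aspherical manifolds, boundary allowed; b_i = i-th L2-Betti number.
-/

set_option autoImplicit false

namespace Pool.Agent.Results.MP_8fe54c_gt.OneDegreeSlope

open Pool.Agent.X308.T

/-- **Theorem.** Let `L` be a class with products, the Künneth inequality, surfaces with large
`b 1` and an object of dimension one with `b 0 ≥ 1`. For `α ≥ 1 / 2` the vanishing of all
`b M i` with `i > α dim M` is equivalent to a bound `b j ≤ B ^ d exp (f (c N))` in one degree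
`j = j t` in each of a sequence of dimensions `d = d t`, with `d t → ∞` and `j t / d t → α`. -/
theorem result {C : Type} (L : ProductClass C) (hE : ∃ E, L.dim E = 1 ∧ 1 ≤ L.b E 0) :
    (∀ α : ℝ, 1 / 2 ≤ α → (L.VanishingAbove α ↔ L.BoundAlong α)) ∧
    ((∀ (M : C) (i : ℕ), 0 < L.dim M → L.dim M < 2 * i → L.b M i = 0) ↔
      L.BoundAlong (1 / 2)) := by
  refine ⟨fun α hα => L.iff_of_interval hE hα, ?_⟩
  rw [← L.iff_of_interval hE le_rfl]
  constructor
  · intro h M i h0 hi
    refine h M i h0 ?_
    have h1 : (L.dim M : ℝ) < ((2 * i : ℕ) : ℝ) := by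
      push_cast
      linarith
    exact_mod_cast h1
  · intro h M i h0 hi
    refine h M i h0 ?_
    have h1 : (L.dim M : ℝ) < ((2 * i : ℕ) : ℝ) := by exact_mod_cast hi
    push_cast at h1
    linarith

end Pool.Agent.Results.MP_8fe54c_gt.OneDegreeSlope
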