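import Pool.Agent.X250.Sph.SlopeLk

/-!
# `ℓ²`-Betti numbers of reflection groups above the middle: slopes of the links

Let `L` be the flag complex of a finite graph `G` and `W = W G` its right-angled Coxeter group.  If `L` is a full
subcomplex of a flag triangulated `(n - 1)`-sphere then the torsion-free subgroups of finite index of the special
subgroups `W_A` are fundamental groups of compact aspherical `n`-manifolds with boundary.  So Q1 predicts that the
`ℓ²`-homology of all `W_A` vanishes in the degrees `> k` if `n = 2 k`, and in the degrees `≥ k` if `n = 2 k - 1`.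

A *slope* of a graph on a finite set `X` consists of involutions `a v` of `X` for the vertices `v`, commuting for
adjacent vertices, and of directions of the edges from `x` to `a v x`, such that opposite edges of squares are
parallel (for example a legal system of Jankiewicz-Norin-Wise).  It gives a Bestvina-Brady Morse function on an
infinite cyclic covering of a quotient of the Davis complex, with the descending links `L[down x]`.

We show that the vanishing in the degrees `> k` for all `W_A` follows from slopes of the links of the nonempty faces
whose descending links have no reduced homology in the one degree `k - 1`; for the links of small dimension, the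
`(k-1)`-dimensional homology spheres and the links of the faces of faces with a good link no slope is needed.  A slope
of `G` itself gives the vanishing in the degrees `≥ k`.  For homology spheres this gives the Singer conjecture.
-/

set_option autoImplicit false

namespace Pool.Agent.Results.MP_8fe54c_gt.SlopesOfLinks

open Pool.Agent.W907.SG Pool.Agent.W907.SM Pool.Agent.TH652.Above Pool.Agent.Y132.SI Pool.Agent.X250.Sph

/-- Let `G` be a finite graph and `1 ≤ k`, and suppose that for each nonempty clique `T` of `G` one of the following
holds: the link of some subset `S` of `T` is in the class `AM (2 k - 1 + |T| - |S|)`; or the link of `T` contains no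
clique with `k` vertices; or it is a real homology `(k-1)`-sphere; or it has a slope on a nonempty finite set such
that the reduced real homology of the descending links vanishes in the degree `k - 1`.
(1) Then for all sets `A` of vertices the reduced `ℓ²`-homology of the Davis complex of `W_A` vanishes in all degrees
`> k`, and for each `ε > 0` there is a finite set `E` of nontrivial elements of `W G` such that for every subgroup `H`
of finite index which contains no conjugate of an element of `E`, all `A` and all `i > k`, the `i`-th real Betti
number of the quotient by `H` of the union of the translates of the Davis complex of `W_A` is at most `ε [W G : H]`.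
(2) If moreover `G` has such a slope then both statements hold for all `i ≥ k`; and if the flag complex of `G` is a
real homology `(2 k - 2)`-sphere then the reduced `ℓ²`-homology for `W G` vanishes in all degrees.
(3) If the flag complex of `G` is a real homology `(2 k - 1)`-sphere then the reduced `ℓ²`-homology for `W G` vanishes
in all degrees `≠ k`, the number `(-1)^k χ(W G)` is not negative, and it is zero if and only if the reduced
`ℓ²`-homology of all `W_A` vanishes in all degrees `≥ k`. -/
theorem result : ∀ (k : ℕ) (V : Type) [Fintype V] [LinearOrder V] (G : SimpleGraph V), 1 ≤ k →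
    (∀ T : Finset V, G.IsClique (T : Set V) → T.Nonempty →
      (∃ S : Finset V, S ⊆ T ∧ AM (2 * k - 1 + (T.card - S.card)) (G.induce (lk G S))) ∨
      (∀ S : Finset V, G.IsClique (S : Set V) → (S : Set V) ⊆ lk G T → S.card < k) ∨
      ∀ _ : Fintype ↥(lk G T), HSph k (G.induce (lk G T)) ∨ HasSlope (G.induce (lk G T)) k) →
    ((∀ (A : Set V) (i : ℕ), k < i → LV (G.induce A) i) ∧
      ∀ ε : ℝ, 0 < ε → ∃ E : Finset (W G), (1 : W G) ∉ E ∧ ∀ H : Subgroup (W G), H.FiniteIndex →
        (∀ g ∈ E, ∀ x : W G, x * g * x⁻¹ ∉ H) → ∀ (A : Set V) (i : ℕ), k < i →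
          (Module.finrank ℝ (HInvOn G A H i) : ℝ) ≤ ε * H.index) ∧
    (HasSlope G k → (∀ (A : Set V) (i : ℕ), k ≤ i → LV (G.induce A) i) ∧
      (∀ ε : ℝ, 0 < ε → ∃ E : Finset (W G), (1 : W G) ∉ E ∧ ∀ H : Subgroup (W G), H.FiniteIndex →
        (∀ g ∈ E, ∀ x : W G, x * g * x⁻¹ ∉ H) → ∀ (A : Set V) (i : ℕ), k ≤ i →
          (Module.finrank ℝ (HInvOn G A H i) : ℝ) ≤ ε * H.index) ∧
      (HSph (2 * k - 1) G → ∀ i : ℕ, L2Van G i)) ∧
    (HSph (2 * k) G → (∀ i : ℕ, i ≠ k → L2Van G i) ∧ 0 ≤ (-1 : ℚ) ^ k * chiW G ∧
      (chiW G = 0 ↔ ∀ (A : Set V) (i : ℕ), k ≤ i → LV (G.induce A) i)) := by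
  intro k V _ _ G hk hT
  have h : ∀ T : Finset V, G.IsClique (T : Set V) → T.Nonempty → LV (G.induce (lk G T)) k :=
    fun T h1 h2 => lv_crit h1 (hT T h1 h2) hk
  have h2 : HasSlope G k → ∀ (A : Set V) (i : ℕ), k ≤ i → LV (G.induce A) i := fun h0 A i hi => by
    rcases hi.eq_or_lt with rfl | hi
    · exact van_at h h0.l2van A
    · exact van_above h i hi A
  refine ⟨⟨fun A i hi => van_above h i hi A, fun ε hε =>
    growth_all (f := fun i => k < i) (fun A i hi => van_above h i hi A) ε hε⟩, fun h0 => ⟨h2 h0, fun ε hε =>
    growth_all (f := fun i => k ≤ i) (h2 h0) ε hε, fun hS => ?_⟩, fun hS => ?_⟩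
  · obtain ⟨m, rfl⟩ := Nat.exists_eq_add_of_le' hk
    have hS' : HSph (2 * m + 1) G := hSph_congr (by omega) hS
    intro i
    by_cases h3 : i = m + 1
    · exact h3 ▸ h0.l2van
    · by_cases h4 : i = m
      · rw [h4]
        exact Pool.Agent.TH652.Dual.l2_duality (n := 2 * m + 1) hS' (i := m) (j := m + 1) (by omega) h0.l2van
      · exact van_odd h hS' h4 h3
  · have h1 : ∀ i : ℕ, i ≠ k → L2Van G i := fun i hi => van_even h hS hi
    refine ⟨h1, (gap_of hS h1).1, fun h2 A i hi => ?_, fun h2 => ?_⟩
    · rcases hi.eq_or_lt with rfl | hi
      · exact van_at h ((gap_of hS h1).2.1.2 h2 _) A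
      · exact van_above h i hi A
    · refine (gap_of hS h1).2.1.1 fun i => ?_
      by_cases hi : i = k
      · rw [hi]
        exact (lv_univ G _).1 (h2 Set.univ _ le_rfl) _ _
      · exact h1 i hi

end Pool.Agent.Results.MP_8fe54c_gt.SlopesOfLinks
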